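import Pool.Agent.H16.ORB.W

/-!
# ORB, row FIN: the addresses of a stage
-/

open Classical Finset

namespace Pool.ORB

/-- FIN. -/
theorem fin (h : STRStmt) : FINStmt := by
  obtain ⟨hlen, -, -, -, hlev⟩ := h
  have hun : ∀ n : ℕ, (un n).length = n := fun n => List.length_replicate ..
  have hrow : ∀ (n : ℕ) (e : Ad) (y : List Bool), y.length = n → e.2 = pair (un n) y →
      e.2.length = 3 * n + 1 := by
    intro n e y hy he
    rw [he, hlen, hun, hy]
    omega
  refine ⟨?_, ?_, ?_⟩
  · intro n τ
    have hf : {e : Ad | InE n τ e}.Finite := by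
      refine Set.Finite.subset (Set.Finite.prod (Set.finite_Iic (τ : ℕ))
        (List.finite_length_le Bool (3 * n + 1 + τ))) ?_
      rintro e (⟨h0, y, hy, he⟩ | ⟨h0, h1, h2, h3⟩)
      · refine ⟨?_, ?_⟩
        · simp [h0]
        · have := hrow n e y hy he
          simp only [Set.mem_ofPred_eq]
          omega
      · have h4 := (hlev e).2.2.2 h0
        refine ⟨?_, ?_⟩
        · simp only [Set.mem_Iic]
          omega
        · simp only [Set.mem_ofPred_eq]
          omega
    refine ⟨hf.toFinset, fun e => ?_⟩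
    rw [Set.Finite.mem_toFinset]
    rfl
  · rintro n τ κ e hn (⟨h0, y, hy, he⟩ | ⟨h0, h1, h2, h3⟩)
    · have := hrow n e y hy he
      omega
    · have h4 := (hlev e).2.2.2 h0
      omega
  · rintro n τ e (⟨h0, y, hy, he⟩ | ⟨h0, h1, h2, h3⟩)
    · have h4 := hrow n e y hy he
      have h5 := (hlev e).2.2.1 h0
      omega
    · exact h2

end Pool.ORB
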