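import Pool.Agent.H16.ORB.W

/-!
# ORB, row QRY: the queries of the stage referee
-/

open Classical Finset

namespace Pool.ORB

/-- QRY. -/
theorem qry (hL : LOCStmt) (hS : STRStmt) : QRYStmt := by
  obtain ⟨-, -, -, hinj, -⟩ := hS
  intro ω n EE M P x g
  obtain ⟨Q0, hQ1, -, hQ3⟩ := hL M (orcg ω n EE g) (P.eval x.length) (M.init x)
  set F : List Bool → Finset ({e // e ∈ EE} × List Bool) := fun s =>
    if h : ∃ y : {e // e ∈ EE} × List Bool, ∃ b, s = str y.1.1 y.2 b then {Classical.choose h}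
    else ∅ with hF
  have hcard : ∀ s, (F s).card ≤ 1 := by
    intro s
    simp only [hF]
    split_ifs with h
    · simp
    · simp
  have hmem : ∀ (e : Ad) (he : e ∈ EE) (w : List Bool) (b : Bool),
      ((⟨e, he⟩ : {e // e ∈ EE}), w) ∈ F (str e w b) := by
    intro e he w b
    have h : ∃ y : {e // e ∈ EE} × List Bool, ∃ b', str e w b = str y.1.1 y.2 b' :=
      ⟨(⟨e, he⟩, w), b, rfl⟩
    simp only [hF]
    rw [dif_pos h, Finset.mem_singleton]
    obtain ⟨b', hb⟩ := Classical.choose_spec h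
    obtain ⟨h1, h2, -⟩ := hinj _ _ _ _ _ _ hb
    exact Prod.ext (Subtype.ext h1) h2
  refine ⟨Q0.biUnion F, ?_, ?_⟩
  · refine le_trans (Finset.card_biUnion_le_card_mul Q0 F 1 fun s _ => hcard s) ?_
    rw [mul_one]
    exact hQ1
  · intro g' hg'
    have key : ∀ g1 g2 : {e // e ∈ EE} → List Bool → Option Bool,
        (∀ y ∈ Q0.biUnion F, g1 y.1 y.2 = g2 y.1 y.2) → ∀ s ∈ Q0, s ∈ orcg ω n EE g1 →
        s ∈ orcg ω n EE g2 := by
      rintro g1 g2 h12 s hs ⟨e, w, b, hw, rfl, h⟩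
      refine ⟨e, w, b, hw, rfl, ?_⟩
      rcases h with ⟨he, h⟩ | h
      · refine Or.inl ⟨he, ?_⟩
        rw [← h12 (⟨e, he⟩, w) (Finset.mem_biUnion.2 ⟨_, hs, hmem e he w b⟩)]
        exact h
      · exact Or.inr h
    unfold Acc
    rw [hQ3 (orcg ω n EE g') fun s hs => ⟨key g' g hg' s hs,
      key g g' (fun y hy => (hg' y hy).symm) s hs⟩]

end Pool.ORB
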