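import Pool.Agent.H16.ORB.W

/-!
# ORB, row STR: lengths and injectivity
-/

open Classical Finset

namespace Pool.ORB

namespace Str49

theorem rep_inj : ∀ (n m : ℕ) (l l' : List Bool),
    List.replicate n true ++ false :: l = List.replicate m true ++ false :: l' →
    n = m ∧ l = l' := by
  intro n
  induction n with
  | zero =>
    intro m l l' h
    cases m with
    | zero => simpa using h
    | succ m => simp [List.replicate_succ] at h
  | succ n ih =>
    intro m l l' h
    cases m with
    | zero => simp [List.replicate_succ] at h
    | succ m =>
      simp only [List.replicate_succ, List.cons_append, List.cons.injEq, true_and] at h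
      obtain ⟨h1, h2⟩ := ih m l l' h
      exact ⟨by omega, h2⟩

theorem pair_inj (x y x' y' : List Bool) (h : pair x y = pair x' y') : x = x' ∧ y = y' := by
  unfold pair at h
  obtain ⟨h1, h2⟩ := rep_inj _ _ _ _ h
  exact List.append_inj h2 h1

theorem pair_len (x y : List Bool) : (pair x y).length = 2 * x.length + 1 + y.length := by
  unfold pair
  simp only [List.length_append, List.length_replicate, List.length_cons]
  omega

theorem pre_len (i : ℕ) (b : Bool) : (pre i b).length = if i = 0 then 1 else i + 2 := by
  cases i with
  | zero => rfl
  | succ i => simp [pre]

end Str49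

open Str49

/-- STR. -/
theorem str_row : STRStmt := by
  refine ⟨pair_len, pair_inj, ?_, ?_, ?_⟩
  · intro e w b hw
    unfold str lev
    rw [List.length_append, pair_len, pre_len, pre_len, hw]
    omega
  · rintro ⟨i, z⟩ w b ⟨i', z'⟩ w' b' h
    unfold str at h
    cases i with
    | zero =>
      cases i' with
      | zero =>
        simp only [pre, List.singleton_append, List.cons.injEq, true_and] at h
        obtain ⟨h1, h2⟩ := pair_inj _ _ _ _ h
        subst h1 h2
        exact ⟨rfl, rfl, fun h3 => absurd rfl h3⟩
      | succ i' => simp [pre, List.replicate_succ] at h
    | succ i =>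
      cases i' with
      | zero => simp [pre, List.replicate_succ] at h
      | succ i' =>
        simp only [pre, List.append_assoc, List.cons_append, List.nil_append] at h
        obtain ⟨h1, h2⟩ := rep_inj _ _ _ _ h
        have h3 : i = i' := by omega
        subst h3
        simp only [List.cons.injEq] at h2
        obtain ⟨h4, h5⟩ := pair_inj _ _ _ _ h2.2
        subst h4 h5
        exact ⟨rfl, rfl, fun _ => h2.1⟩
  · intro e
    unfold lev
    rw [pre_len]
    split_ifs with h
    · omega
    · omega

end Pool.ORB
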